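import Pool.Agent.Q262.Jac.Core

/-!
# Domination of unitary Cayley graphs: `γ(X_n) ≤ g(n) - 2` with arbitrarily many prime factors
-/

set_option autoImplicit false

namespace Pool.Agent.Results.MP_6d1f6b_co.GapTwoInfinitelyOften

open Pool.Agent.Q262.Jac

theorem result : ∀ k : ℕ, 1 ≤ k → ∃ n : ℕ, 1 < n ∧ k ≤ n.primeFactors.card ∧
    (domNumber (unitaryCayley n) : ℤ) ≤ (jacobsthal n : ℤ) - 2 := by
  intro k _
  refine ⟨nn k, nn_gt k, ?_, ?_⟩
  · have := primeFactors_ge k
    omega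
  · have h1 := domNumber_le k
    have h2 := jacobsthal_ge k
    omega

end Pool.Agent.Results.MP_6d1f6b_co.GapTwoInfinitelyOften
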